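import Pool.Agent.Lib.MP_351e72_co.Ex

namespace Pool.Agent.Lib.MP_351e72_co.Old.SmallTrace

open Pool.Agent.Lib.MP_351e72_co

theorem result :
    ∃ (n d : ℕ) (h : MvPolynomial (Fin n) ℝ) (e : Fin n → ℝ) (ε : ℝ) (v w : List (Fin n → ℝ)),
      h.IsHomogeneous d ∧ MvPolynomial.eval e h ≠ 0 ∧ (∀ x, (line h e x).Splits) ∧
      0 < ε ∧ ε < 1 ∧ ⌊d / ε⌋₊ + 1 ≤ v.length ∧
      w = List.replicate ⌊d / ε⌋₊ ((ε / d) • e) ++ [(1 - ⌊d / ε⌋₊ * ε / d) • e] ++
        List.replicate (v.length - (⌊d / ε⌋₊ + 1)) 0 ∧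
      Adm h e ε v ∧ Adm h e ε w ∧
      ∃ t ∈ (chi h e v).roots, ∀ s, (chi h e w).IsRoot s → s < t := by
  have hk : ⌊((61 : ℕ) : ℝ) / (2 / 3)⌋₊ = 91 := by
    rw [Nat.floor_eq_iff (by norm_num)]; norm_num
  have hl : vv.length = 92 := by
    rw [vv, List.length_append, List.length_replicate]; rfl
  refine ⟨2, 61, hh, ee, 2 / 3, vv,
    List.replicate 91 ((2 / 183 : ℝ) • ee) ++ [(1 / 183 : ℝ) • ee], hh_hom, by simp [hh, ee],
    fun x => ?_, by norm_num, by norm_num, by rw [hk, hl], ?_, adm_hh (fun w hw => ?_) ?_,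
    adm_hh (fun w hw => ?_) ?_, ?_⟩
  · rw [line_hh]
    exact (Polynomial.Splits.X_sub_C _).mul ((Polynomial.Splits.X_sub_C _).pow _)
  · rw [hk, hl, Nat.sub_self, List.replicate_zero, List.append_nil,
      show (2 / 3 : ℝ) / (61 : ℕ) = 2 / 183 by norm_num,
      show (1 - (91 : ℕ) * (2 / 3) / (61 : ℕ) : ℝ) = 1 / 183 by norm_num]
  · rcases List.mem_append.1 hw with hw | hw
    · rw [List.eq_of_mem_replicate hw]; norm_num
    · simp only [List.mem_cons, List.not_mem_nil, or_false] at hw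
      rcases hw with rfl | rfl <;> norm_num
  · rw [vv, List.sum_append, List.sum_replicate]
    ext i; fin_cases i <;> norm_num [ee]
  · rcases List.mem_append.1 hw with hw | hw
    · rw [List.eq_of_mem_replicate hw]; norm_num [ee]
    · rw [List.mem_singleton.1 hw]; norm_num [ee]
  · rw [List.sum_append, List.sum_replicate]
    ext i; norm_num [ee]
  · obtain ⟨t, ht, hr⟩ := root_vv
    exact ⟨t, hr, fun s hs => (root_conj hs).trans_le ht⟩

end Pool.Agent.Lib.MP_351e72_co.Old.SmallTrace
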